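import Pool.Agent.H337R2.LZ.Defs
import Pool.Agent.H336R2.HD.Defs
import Pool.Agent.H337R2.Cx3

/-!
# Irrationality exponent of `ζ(3)`: definitions

`R(t) = ((7n)!)² / ((4n)! (6n)!) · ∏_{j=1}^{4n} (t+j) · ∏_{j=1}^{6n} (t+j) / ∏_{5n<k≤12n} (t+k)²`.
With the partial fractions `b_k / (t+k)² + c_k / (t+k)` of `R Q` (`∑ c_k = 0`)
`- ∑_{t ≥ -4n} (RQ)'(t) = 2 ρ ζ(3) - h3`, `ρ = ∑ b_k`. `NL n x Q = 2 x ρ - h3` is the same number with
`ζ(3)` replaced by the rational number `x`. `DET n x m` is the Hankel determinant of this functional;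
it is used with `m = 2 n`.
-/

open Polynomial Pool.Agent.H337R2

namespace Pool.Agent.W170.Z3

noncomputable section

/-- `⌊(y+1)²/4⌋` for `y > 0`, and `0` otherwise -/
abbrev TT := Pool.Agent.H336R2.HD.TT

/-- `q` is a denominator of `u` -/
abbrev QI := Pool.Agent.LZ.QI

/-- primes in `(lo n, hi n]` (for `hi ≤ 14`) -/
abbrev PR := Pool.Agent.LZ.PR

/-- the poles are at `-k`, `5n < k ≤ 12n` -/
abbrev sF (n : ℕ) : Finset ℕ := Finset.Icc (5 * n + 1) (12 * n)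

/-- multiplicities of the poles -/
abbrev mF : ℕ → ℕ := fun _ => 2

/-- `((7n)!)² / ((4n)! (6n)!)` -/
def cF (n : ℕ) : ℚ :=
  (((7 * n).factorial ^ 2 : ℕ) : ℚ) / (((4 * n).factorial * (6 * n).factorial : ℕ) : ℚ)

/-- numerator -/
def PF (n : ℕ) : ℚ[X] := C (cF n) * ((∏ j ∈ Finset.Icc 1 (4 * n), (X + C (j : ℚ))) *
  ∏ j ∈ Finset.Icc 1 (6 * n), (X + C (j : ℚ)))

/-- `∑ b_k` -/
def rho (n : ℕ) (P : ℚ[X]) : ℚ := ∑ k ∈ sF n, pa (sF n) mF P k 2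

/-- the part with the harmonic numbers -/
def h3 (n : ℕ) (P : ℚ[X]) : ℚ := ∑ k ∈ sF n,
  (2 * pa (sF n) mF P k 2 * hs 3 (k - 4 * n - 1) + pa (sF n) mF P k 1 * hs 2 (k - 4 * n - 1))

/-- the linear form as a function of the numerator -/
def xf (n : ℕ) (x : ℚ) (P : ℚ[X]) : ℚ := 2 * x * rho n P - h3 n P

lemma pa_add (s : Finset ℕ) (μ : ℕ → ℕ) (P Q : ℚ[X]) (k i : ℕ) :
    pa s μ (P + Q) k i = pa s μ P k i + pa s μ Q k i :=
  Pool.Agent.LZ.pa_add s μ P Q k i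

lemma pa_C_mul (s : Finset ℕ) (μ : ℕ → ℕ) (c : ℚ) (P : ℚ[X]) (k i : ℕ) :
    pa s μ (C c * P) k i = c * pa s μ P k i :=
  Pool.Agent.LZ.pa_C_mul s μ c P k i

lemma rho_add (n : ℕ) (P Q : ℚ[X]) : rho n (P + Q) = rho n P + rho n Q := by
  unfold rho
  rw [← Finset.sum_add_distrib]
  exact Finset.sum_congr rfl fun k _ => pa_add _ _ _ _ _ _

lemma rho_C_mul (n : ℕ) (c : ℚ) (P : ℚ[X]) : rho n (C c * P) = c * rho n P := by
  unfold rho
  rw [Finset.mul_sum]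
  exact Finset.sum_congr rfl fun k _ => pa_C_mul _ _ _ _ _ _

lemma h3_add (n : ℕ) (P Q : ℚ[X]) : h3 n (P + Q) = h3 n P + h3 n Q := by
  unfold h3
  rw [← Finset.sum_add_distrib]
  exact Finset.sum_congr rfl fun k _ => by rw [pa_add, pa_add]; ring

lemma h3_C_mul (n : ℕ) (c : ℚ) (P : ℚ[X]) : h3 n (C c * P) = c * h3 n P := by
  unfold h3
  rw [Finset.mul_sum]
  exact Finset.sum_congr rfl fun k _ => by rw [pa_C_mul, pa_C_mul]; ring

lemma xf_add (n : ℕ) (x : ℚ) (P Q : ℚ[X]) : xf n x (P + Q) = xf n x P + xf n x Q := by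
  unfold xf
  rw [rho_add, h3_add]; ring

lemma xf_C_mul (n : ℕ) (x : ℚ) (c : ℚ) (P : ℚ[X]) : xf n x (C c * P) = c * xf n x P := by
  unfold xf
  rw [rho_C_mul, h3_C_mul]; ring

/-- the functional -/
def NL (n : ℕ) (x : ℚ) : ℚ[X] →ₗ[ℚ] ℚ where
  toFun Q := xf n x (PF n * Q)
  map_add' P Q := by rw [mul_add, xf_add]
  map_smul' c P := by
    rw [RingHom.id_apply, Polynomial.smul_eq_C_mul, mul_left_comm, xf_C_mul, smul_eq_mul]

lemma NL_apply (n : ℕ) (x : ℚ) (Q : ℚ[X]) : NL n x Q = xf n x (PF n * Q) := rfl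

/-- Hankel determinant -/
def DET (n : ℕ) (x : ℚ) (m : ℕ) : ℚ :=
  (Matrix.of fun i j : Fin m => NL n x (X ^ (i.1 + j.1))).det

/-- the exponent `e_p(k)`: valuation of the constant, plus zeros, minus poles in the class of `k` -/
def eF (n p k : ℕ) : ℤ :=
  2 * ((7 * n / p : ℕ) : ℤ) - ((4 * n / p : ℕ) : ℤ) - ((6 * n / p : ℕ) : ℤ) + cnt p 1 (4 * n) k +
    cnt p 1 (6 * n) k - 2 * cnt p (5 * n + 1) (12 * n) k

/-! ### Cells -/

/-- a cell `u0/v0 < p/n ≤ u1/v1`; `full`: all classes are charged; level `mu`; `od`: the thresholds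
`4, 5, 6, 12` in increasing order of the residues `a n mod p` -/
structure Cell where
  u0 : ℕ
  v0 : ℕ
  u1 : ℕ
  v1 : ℕ
  full : Bool
  mu : ℤ
  od : List ℕ

/-- `⌊a n / p⌋` in the cell -/
def Cell.fl (c : Cell) (a : ℕ) : ℕ := a * c.v1 / c.u1

/-- weight of a threshold in `e` -/
def wtE : ℕ → ℤ
  | 4 => 1
  | 5 => 2
  | 6 => 1
  | 12 => -2
  | _ => 0

/-- weight of a threshold in the number of sites in `(4n, 12n]` -/
def wtS : ℕ → ℤ
  | 4 => -1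
  | 12 => 1
  | _ => 0

/-- cost of a class with exponent `e` and `s` sites in `(4n, 12n]` -/
def Cell.cost (c : Cell) (e s : ℤ) : ℤ :=
  if c.full then TT (1 - e - c.mu) else if 2 ≤ s then TT (1 - e - c.mu) else 0

/-- base exponent -/
def Cell.e0 (c : Cell) : ℤ := 2 * (c.fl 7 : ℤ) + 2 * (c.fl 5 : ℤ) - 2 * (c.fl 12 : ℤ)

/-- the cost of the classes: pair `(A, B)` meaning `A n + B p`. `a`: last threshold passed (`0` at the start),
`e, s`: exponent and number of sites on the next interval -/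
def Cell.go (c : Cell) : ℕ → ℤ → ℤ → List ℕ → ℤ × ℤ
  | a, e, s, [] => (- (a : ℤ) * c.cost e s, (1 + (c.fl a : ℤ)) * c.cost e s)
  | a, e, s, b :: l =>
    let r := c.go b (e - wtE b) (s - wtS b) l
    (r.1 + ((b : ℤ) - a) * c.cost e s, r.2 - ((c.fl b : ℤ) - c.fl a) * c.cost e s)

/-- exponent of the cell: `AB.1 n + AB.2 p` -/
def Cell.AB (c : Cell) : ℤ × ℤ :=
  let r := c.go 0 (c.e0 + 2) ((c.fl 12 : ℤ) - c.fl 4) c.od
  (r.1 + 2 * c.mu, r.2)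

/-- the factorial part: `2 ∑_{i < 2n} ⌊i/p⌋ = sf.1 n + sf.2 p` -/
def Cell.sf (c : Cell) : ℤ × ℤ := (4 * (c.fl 2 : ℤ), - ((c.fl 2 : ℤ) * (c.fl 2 + 1)))

/-- validity of a cell -/
def Cell.ok (c : Cell) : Bool :=
  decide (0 < c.u0) && decide (0 < c.v0) && decide (0 < c.u1) && decide (0 < c.v1) &&
  decide (c.u0 * c.v1 < c.u1 * c.v0) &&
  ([2, 4, 5, 6, 7, 12].all fun a => decide (a * c.v0 ≤ (c.fl a + 1) * c.u0)) &&
  (c.od.isPerm [4, 5, 6, 12]) &&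
  ((List.zip c.od (c.od.drop 1)).all fun x =>
    decide (0 ≤ ((x.2 : ℤ) - x.1) * c.v0 - ((c.fl x.2 : ℤ) - c.fl x.1) * c.u0) &&
    decide (0 ≤ ((x.2 : ℤ) - x.1) * c.v1 - ((c.fl x.2 : ℤ) - c.fl x.1) * c.u1)) &&
  (c.full || decide ((c.fl 4 : ℤ) + (c.fl 6 : ℤ) - 2 * (c.fl 7 : ℤ) ≤ c.mu))

/-- limit for a cell -/
def Cell.lim (c : Cell) : ℚ :=
  ((c.AB.1 + c.sf.1 : ℤ) : ℚ) * ((c.u1 : ℚ) / c.v1 - (c.u0 : ℚ) / c.v0) +
    ((c.AB.2 + c.sf.2 : ℤ) : ℚ) * (((c.u1 : ℚ) / c.v1) ^ 2 - ((c.u0 : ℚ) / c.v0) ^ 2) / 2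

/-! ### Local objects for the non-vanishing at `n = p` -/

/-- local power series at the pole `j`, sites `j = 5, …, 11`: double zeros at the sites `0, …, 3`, simple
zeros at the sites `4, 5` (the site `5` is both a zero and a double pole) -/
def ser (j e : ℕ) : PowerSeries ℚ :=
  (∏ a ∈ Finset.range 4, (PowerSeries.X + PowerSeries.C ((a : ℚ) - j)) ^ 2) *
  (∏ a ∈ (Finset.Icc 4 5 : Finset ℕ), (PowerSeries.X + PowerSeries.C ((a : ℚ) - j))) *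
  (∏ b ∈ (Finset.Icc 5 11).erase j, iv ((b : ℚ) - j) ^ 2) * (PowerSeries.X + PowerSeries.C (-(j : ℚ))) ^ e

/-- local functional on monomials: the part with the harmonic numbers -/
def Fm (e : ℕ) : ℚ :=
  - ∑ j ∈ Finset.Icc 5 11, (2 * PowerSeries.coeff 0 (ser j e) * hs 3 (j - 4) +
    PowerSeries.coeff 1 (ser j e) * hs 2 (j - 4))

/-- local functional on monomials: the sum of the double residues -/
def rm (e : ℕ) : ℚ := 2 * ∑ j ∈ Finset.Icc 5 11, PowerSeries.coeff 0 (ser j e)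

/-- the other classes, with multiplicity `c` -/
def OT (p r c : ℕ) : ℚ[X] := ∏ r' ∈ (Finset.Icc 1 p).erase r, (X + C (r' : ℚ)) ^ c

/-! ### Archimedean objects -/

/-- the point `-(n + 1/2) + i y` of the line -/
def zn (n : ℕ) (y : ℝ) : ℂ := zl y - (n : ℂ)

/-- `R` on the line `Re t = -(n + 1/2)` -/
def Rn (n : ℕ) (y : ℝ) : ℂ := aeval (zn n y) (PF n) / aeval (zn n y) (QQ (sF n) mF)

/-- the squares of the ordinates of the nodes (divided by `n`), in thousandths -/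
def hN : ℕ → ℕ
  | 0 => 10
  | 1 => 40
  | 2 => 88
  | 3 => 165
  | 4 => 288
  | 5 => 484
  | 6 => 799
  | 7 => 1302
  | 8 => 2107
  | _ => 3396

/-- the nodes -/
def hG (i : ℕ) : ℚ := (hN i : ℚ) / 1000

/-- cumulative multiplicities (times `N`) of the nodes at the stages `0, …, 8` -/
def sT : ℕ → List ℕ
  | 0 => [0, 0, 0, 0, 0, 0, 0, 0, 0, 0]
  | 1 => [4, 0, 2, 1, 1, 0, 0, 0, 0, 0]
  | 2 => [5, 1, 2, 2, 3, 2, 1, 0, 0, 0]
  | 3 => [6, 1, 3, 2, 5, 2, 5, 0, 0, 0]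
  | 4 => [7, 1, 4, 2, 5, 4, 5, 4, 0, 0]
  | 5 => [7, 1, 5, 3, 5, 5, 5, 7, 2, 0]
  | 6 => [8, 1, 5, 3, 6, 5, 7, 7, 6, 0]
  | 7 => [9, 1, 5, 3, 6, 5, 8, 7, 10, 0]
  | _ => [9, 1, 5, 4, 6, 6, 8, 7, 12, 2]

/-- cumulative multiplicity of the node `i` at the stage `b` -/
def sG (b i : ℕ) : ℕ := (sT b).getD i 0

/-- half the offsets of the stages -/
def ho : ℕ → ℕ
  | 0 => 0
  | 1 => 8
  | 2 => 16
  | 3 => 24
  | 4 => 32
  | 5 => 40
  | 6 => 48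
  | 7 => 54
  | _ => 60

/-- the binary exponents at the stages -/
def tG : ℕ → ℕ
  | 0 => 0
  | 1 => 71
  | 2 => 113
  | 3 => 142
  | 4 => 162
  | 5 => 173
  | 6 => 183
  | 7 => 183
  | _ => 184

/-- the factors `(c, e)` of the comparison product `∏ (1 + v/c²)^e` (unit `N = ⌊n/60⌋`) -/
def FXG : List (ℚ × ℕ) :=
  [(21/20, 6), (23/20, 6), (25/20, 6), (27/20, 6), (29/20, 6), (31/20, 6), (33/20, 6), (35/20, 6), (37/20, 6),
   (39/20, 6), (21/10, 12), (23/10, 12), (25/10, 12), (27/10, 12), (29/10, 12), (31/10, 18), (33/10, 18),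
   (35/10, 18), (37/10, 18), (39/10, 18), (41/10, 30), (43/10, 30), (45/10, 30), (47/10, 30), (49/10, 30),
   (21/4, 90), (23/4, 90), (25/4, 90), (27/4, 90), (15/2, 180), (17/2, 180), (19/2, 180), (21/2, 180),
   (12, 240), (29/2, 360), (18, 480), (24, 960), (36, 1920), (60, 3840), (108, 7680), (220, 19200)]

/-- comparison product -/
def FXpG (v : ℝ) : ℝ := (FXG.map fun x => (1 + v / (x.1 : ℝ) ^ 2) ^ x.2).prod

/-- `|R|` on the line `Re t = -(n + 1/2)` -/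
def NG (n : ℕ) (y : ℝ) : ℝ :=
  (((7 * n).factorial : ℕ) : ℝ) ^ 2 / ((((4 * n).factorial : ℕ) : ℝ) * (((6 * n).factorial : ℕ) : ℝ)) *
    ((∏ m ∈ Finset.Icc 1 (4 * n), ‖zn n y + (m : ℂ)‖) * ∏ m ∈ Finset.Icc 1 (6 * n), ‖zn n y + (m : ℂ)‖) /
    ∏ k ∈ Finset.Icc (5 * n + 1) (12 * n), ‖zn n y + (k : ℂ)‖ ^ 2

/-- the exponential rate of `R` at the real point of the line -/
def PhiG : ℝ := 14 * Real.log 7 + 4 * Real.log 4 - 6 * Real.log 6 + 3 * Real.log 3 + 5 * Real.log 5 -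
  22 * Real.log 11

/-- the coefficient of `(t+k)^(-2)` in `R`, `6n < k ≤ 12n` -/
def RK (n k : ℕ) : ℚ :=
  cF n * ((∏ j ∈ Finset.Icc 1 (4 * n), ((k : ℚ) - j)) * ∏ j ∈ Finset.Icc 1 (6 * n), ((k : ℚ) - j)) /
    ∏ m ∈ (sF n).erase k, ((m : ℚ) - k) ^ 2

/-- the linear polynomial `X + n + 1/2` -/
def Lin (n : ℕ) : ℚ[X] := X + C ((n : ℚ) + 1 / 2)

/-- the node polynomials `(X + n + 1/2)² + h n²` -/
def QB (n i : ℕ) : ℚ[X] := Lin n ^ 2 + C (hG i * (n : ℚ) ^ 2)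

/-- full product at the stage `b` -/
def SB (n b : ℕ) : ℚ[X] := ∏ i ∈ Finset.range 10, QB n i ^ (sG b i * (n / 60))

/-- the step from the stage `b` to the stage `b + 1`, degree `2 (ho (b+1) - ho b)` -/
def TB (n b : ℕ) : ℚ[X] := ∏ i ∈ Finset.range 10, QB n i ^ (sG (b + 1) i - sG b i)

/-- the basis: `b < 8`, `m < n / 60`, `j < 2 (ho (b+1) - ho b)`, or `b = 8`, `m = 0`, `j < 2 n - 120 (n/60)` -/
def PA (n b m j : ℕ) : ℚ[X] := SB n b * TB n b ^ m * Lin n ^ j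

/-- valid positions -/
def Pos (n b m j : ℕ) : Prop :=
  (b < 8 ∧ m < n / 60 ∧ j < 2 * (ho (b + 1) - ho b)) ∨ (b = 8 ∧ m = 0 ∧ j < 2 * n - 120 * (n / 60))

/-- the degree at a position -/
def dg (n b m j : ℕ) : ℕ := 2 * ho b * (n / 60) + 2 * (ho (b + 1) - ho b) * m + j

/-- logarithm of the corner bound at the stage `b` -/
def la (C : ℝ) (K n b : ℕ) : ℝ :=
  Real.log C + K * Real.log n + n * PhiG + 4 * ho b * (n / 60 : ℕ) * Real.log n -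
    tG b * (n / 60 : ℕ) * Real.log 2

/-- the exponent of the bound at a position -/
def al (C : ℝ) (K n b m : ℕ) : ℝ :=
  (1 - (m : ℝ) / (n / 60 : ℕ)) * la C K n b + (m : ℝ) / (n / 60 : ℕ) * la C K n (b + 1)

/-- the binary exponent for the poles -/
def UU : ℕ := 2840

end

end Pool.Agent.W170.Z3
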