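import Pool.Agent.W170.Z3.Stm
import Pool.Agent.H336R2.HD.G3

/-!
# G3: the numerical certificate
-/

namespace Pool.Agent.W170.Z3

open Pool.Agent.H336R2.HD.G3 (vl P1 P2 C6 D6 Q Q_pos P2_pos C6_pos Q_low Q_six Q_append)

namespace GC

/-- numerator of `|h - v|` at `v = n/d` -/
def En (i n d : ℕ) : ℕ := (hN i * d - 1000 * n) + (1000 * n - hN i * d)

/-- bound for the left side on `[n0/d0, n1/d1]` -/
def LNz (b n0 d0 n1 d1 : ℕ) : ℕ → ℕ
  | 0 => 1
  | i + 1 => LNz b n0 d0 n1 d1 i * (max (En i n0 d0 * d1) (En i n1 d1 * d0)) ^ (2 * sG b i)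

def SNz (b : ℕ) : ℕ → ℕ
  | 0 => 0
  | i + 1 => SNz b i + sG b i

def K1 : List (ℕ × ℕ × ℕ) :=
  [(21, 20, 6), (23, 20, 6), (25, 20, 6), (27, 20, 6), (29, 20, 6), (31, 20, 6), (33, 20, 6),
   (35, 20, 6), (37, 20, 6), (39, 20, 6), (21, 10, 12), (23, 10, 12), (25, 10, 12), (27, 10, 12),
   (29, 10, 12), (31, 10, 18), (33, 10, 18), (35, 10, 18), (37, 10, 18), (39, 10, 18)]

def K6 : List (ℕ × ℕ × ℕ) := [(41, 10, 30), (43, 10, 30), (45, 10, 30), (47, 10, 30), (49, 10, 30)]

def K2a : List (ℕ × ℕ × ℕ) :=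
  [(21, 4, 90), (23, 4, 90), (25, 4, 90), (27, 4, 90), (15, 2, 180), (17, 2, 180), (19, 2, 180),
   (21, 2, 180), (12, 1, 240), (29, 2, 360), (18, 1, 480), (24, 1, 960)]

/-- reduced far factors -/
def K2b : List (ℕ × ℕ × ℕ) := [(18, 1, 480), (15, 1, 240), (27, 2, 120), (55, 4, 75)]

def K2 : List (ℕ × ℕ × ℕ) := K2a ++ K2b

def KK0 : List (ℕ × ℕ × ℕ) := K1 ++ K6 ++ K2

def chkIz (b : ℕ) (p q : ℕ × ℕ) : Bool :=
  decide (0 < p.2) && decide (0 < q.2) &&
    decide (2 ^ tG b * LNz b p.1 p.2 q.1 q.2 10 * P2 KK0 p.2 ≤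
      P1 KK0 p.1 p.2 * (1000 * p.2 * q.2) ^ (2 * SNz b 10))

def chkLz (b : ℕ) : List (ℕ × ℕ) → Bool
  | [] => true
  | p :: l => (match l with
    | [] => true
    | q :: _ => chkIz b p q) && chkLz b l

def chkTz (b : ℕ) (p : ℕ × ℕ) : Bool :=
  decide (0 < p.2) && decide (2 * p.2 ≤ p.1) &&
    decide (2 ^ tG b * P2 K1 p.2 * P2 K2 p.2 * C6 K6 * p.2 ^ (150 - 2 * SNz b 10) ≤
      p.1 ^ (150 - 2 * SNz b 10) * P1 K1 p.1 p.2 * P1 K2 p.1 p.2 * D6 K6)

def bz1 : List (ℕ × ℕ) :=
  [(0, 1), (253, 10000), (353, 10000), (26, 625), (233, 5000), (103, 2000), (573, 10000), (659, 10000), (421, 5000), (109, 1000), (1227, 10000), (1337, 10000), (291, 2000), (817, 5000), (183, 1000), (243, 1250), (2027, 10000), (2097, 10000), (1081, 5000), (557, 2500), (1151, 5000), (2393, 10000), (2521, 10000), (2739, 10000), (391, 1250), (683, 2000), (463, 1250), (203, 500), (2297, 5000), (2807, 5000), (4247, 5000), (7419, 2500), (4223979, 10000)]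

def bz2 : List (ℕ × ℕ) :=
  [(0, 1), (221, 10000), (319, 10000), (26, 625), (61, 1250), (529, 10000), (559, 10000), (73, 1250), (38, 625), (633, 10000), (663, 10000), (141, 2000), (777, 10000), (97, 1000), (1057, 10000), (277, 2500), (1143, 10000), (1171, 10000), (597, 5000), (243, 2000), (309, 2500), (1257, 10000), (16, 125), (1307, 10000), (671, 5000), (87, 625), (59, 400), (1663, 10000), (923, 5000), (1947, 10000), (101, 500), (2081, 10000), (1069, 5000), (1099, 5000), (2269, 10000), (591, 2500), (629, 2500), (2849, 10000), (3239, 10000), (687, 2000), (3561, 10000), (731, 2000), (3731, 10000), (1899, 5000), (3861, 10000), (981, 2500), (3991, 10000), (1017, 2500), (2081, 5000), (429, 1000), (1123, 2500), (2457, 5000), (2637, 5000), (2743, 5000), (1127, 2000), (5751, 10000), (731, 1250), (5933, 10000), (6011, 10000), (3043, 5000), (77, 125), (1559, 2500), (6317, 10000), (3203, 5000), (1627, 2500), (663, 1000), (424, 625), (6993, 10000), (7303, 10000), (3921, 5000),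 (8657, 10000), (963, 1000), (11213, 10000), (3693, 2500), (362, 125), (440201, 10000)]

def bz3 : List (ℕ × ℕ) :=
  [(0, 1), (14, 625), (163, 5000), (43, 1000), (503, 10000), (279, 5000), (307, 5000), (687, 10000), (413, 5000), (1039, 10000), (1143, 10000), (76, 625), (1279, 10000), (84, 625), (57, 400), (311, 2000), (1797, 10000), (1937, 10000), (2057, 10000), (2189, 10000), (2377, 10000), (1381, 5000), (3317, 10000), (3569, 10000), (1861, 5000), (3831, 10000), (3917, 10000), (499, 1250), (4061, 10000), (413, 1000), (1051, 2500), (429, 1000), (4401, 10000), (913, 2000), (4883, 10000), (5159, 10000), (2657, 5000), (2709, 5000), (1099, 2000), (1389, 2500), (5607, 10000), (5651, 10000), (5691, 10000), (358, 625), (5763, 10000), (5797, 10000), (583, 1000), (733, 1250), (5899, 10000), (5937, 10000), (2989, 5000), (753, 1250), (6077, 10000), (307, 500), (3109, 5000), (79, 125), (6461, 10000), (3337, 5000), (1761, 2500), (7879, 10000), (4461, 5000), (4737, 5000), (4917,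 5000), (631, 625), (103, 100), (5233, 5000), (10607, 10000), (1073, 1000), (271, 250), (547, 500), (5517, 5000), (11123, 10000), (11209, 10000), (11293, 10000), (11377, 10000), (5731, 5000), (11549, 10000), (291, 250), (1467, 1250), (11839, 10000), (747, 625), (12077, 10000), (12219, 10000), (774, 625), (629, 500), (641, 500), (3281, 2500), (541, 400), (3521, 2500), (373, 250), (1019, 625), (18979, 10000), (12889, 5000), (724, 125), (220097, 1000)]

def bz4 : List (ℕ × ℕ) :=
  [(0, 1), (229, 10000), (167, 5000), (221, 5000), (129, 2500), (581, 10000), (661, 10000), (101, 1250), (1051, 10000), (1157, 10000), (1223, 10000), (159, 1250), (263, 2000), (339, 2500), (1401, 10000), (729, 5000), (773, 5000), (349, 2000), (23, 125), (19, 100), (243, 1250), (99, 500), (503, 2500), (1021, 5000), (259, 1250), (263, 1250), (107, 500), (273, 1250), (1121, 5000), (2327, 10000), (2473, 10000), (703, 2500), (1631, 5000), (3481, 10000), (1813, 5000), (187, 500), (3843, 10000), (1973,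 5000), (4063, 10000), (843, 2000), (4453, 10000), (2491, 5000), (2677, 5000), (347, 625), (5679, 10000), (577, 1000), (5839, 10000), (1179, 2000), (2971, 5000), (2991, 5000), (3009, 5000), (121, 200), (76, 125), (6109, 10000), (6137, 10000), (1541, 2500), (387, 625), (311, 500), (6249, 10000), (157, 250), (3157, 5000), (6351, 10000), (3197, 5000), (1611, 2500), (813, 1250), (329, 500), (167, 250), (3411, 5000), (1761, 2500), (466, 625), (427, 500), (4509, 5000), (4651, 5000), (1187, 1250), (241, 250), (9753, 10000), (4923, 5000), (397, 400), (4997, 5000), (1257, 1250), (10113, 10000), (5083, 5000), (10217, 10000), (10267, 10000), (2579, 2500), (5183, 5000), (10417, 10000), (10471, 10000), (658, 625), (1059, 1000), (10659, 10000), (5369, 5000), (10831, 10000), (684, 625), (11087, 10000), (5639, 5000), (11553, 10000), (2999, 2500), (12883, 10000), (13991, 10000), (14639, 10000), (7553, 5000), (387, 250), (15803, 10000), (8049, 5000), (819, 500), (8331, 5000), (8477,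 5000), (17269, 10000), (17623, 10000), (18037, 10000), (3709, 2000), (9601, 5000), (2011, 1000), (859, 400), (23783, 10000), (1423, 500), (41609, 10000), (124453, 10000)]

def bz5 : List (ℕ × ℕ) :=
  [(0, 1), (21, 1000), (303, 10000), (193, 5000), (119, 2500), (277, 5000), (329, 5000), (897, 10000), (569, 5000), (129, 1000), (721, 5000), (211, 1250), (1897, 10000), (2029, 10000), (2141, 10000), (1129, 5000), (2409, 10000), (2671, 10000), (799, 2500), (3441, 10000), (901, 2500), (3737, 10000), (483, 1250), (1001, 2500), (837, 2000), (4477, 10000), (1041, 2000), (2753, 5000), (2839, 5000), (362, 625), (2937, 5000), (371, 625), (2993, 5000), (6027, 10000), (3031, 5000), (1523, 2500), (6119, 10000), (6143, 10000), (1233, 2000), (3093, 5000), (1241, 2000), (389, 625), (3121, 5000), (313, 500), (3139, 5000), (787, 1250), (3157, 5000), (1583, 2500), (6351, 10000), (6371, 10000), (6393, 10000), (401, 625), (3221, 5000), (6471, 10000), (813, 1250), (3271, 5000), (1647, 2500),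 (1661, 2500), (1679, 2500), (6813, 10000), (6953, 10000), (897, 1250), (3801, 5000), (8519, 10000), (8953, 10000), (9231, 10000), (9437, 10000), (4803, 5000), (2439, 2500), (9897, 10000), (5019, 5000), (10187, 10000), (2071, 2000), (10557, 10000), (10821, 10000), (2801, 2500), (5929, 5000), (3351, 2500), (14587, 10000), (15259, 10000), (982, 625), (1003, 625), (8157, 5000), (2067, 1250), (2091, 1250), (16901, 10000), (853, 500), (17211, 10000), (8679, 5000), (3501, 2000), (3531, 2000), (17813, 10000), (17983, 10000), (18171, 10000), (18387, 10000), (18643, 10000), (9481, 5000), (3877, 2000), (19997, 10000), (263, 125), (22273, 10000), (5847, 2500), (24617, 10000), (1047, 400), (7109, 2500), (2018, 625), (40553, 10000), (16911, 2500), (360629, 10000)]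

def bz6 : List (ℕ × ℕ) :=
  [(0, 1), (207, 10000), (71, 2500), (337, 10000), (393, 10000), (9, 200), (97, 2000), (257, 5000), (541, 10000), (571, 10000), (61, 1000), (42, 625), (807, 10000), (1049, 10000), (1159, 10000), (77, 625), (323, 2500), (169, 1250), (89, 625), (767, 5000), (1777, 10000), (118, 625), (1961, 10000), (2017, 10000), (1033, 5000), (1057, 5000), (433, 2000), (1113, 5000), (2307, 10000), (152, 625), (1341, 5000), (3199, 10000), (1711, 5000), (1779, 5000), (457, 1250), (467, 1250), (3807, 10000), (969, 2500), (987, 2500), (403, 1000), (4133, 10000), (107, 250), (907, 2000), (5163, 10000), (217, 400), (697, 1250), (227, 400), (2873, 5000), (29, 50), (5843, 10000), (5879, 10000), (5909, 10000), (1187, 2000), (2979, 5000), (2989, 5000), (1499, 2500), (6013, 10000), (6029, 10000), (1511, 2500), (3029, 5000), (759, 1250), (1217, 2000), (3049, 5000), (6111, 10000), (1531, 2500), (6137, 10000), (123, 200), (1541, 2500), (3089, 5000), (6193, 10000), (6209,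 10000), (3113, 5000), (1561, 2500), (783, 1250), (3143, 5000), (6311, 10000), (317, 500), (3187, 5000), (1283, 2000), (1293, 2000), (6529, 10000), (1323, 2000), (6737, 10000), (6927, 10000), (727, 1000), (1621, 2000), (8837, 10000), (2303, 2500), (9449, 10000), (4809, 5000), (2437, 2500), (4927, 5000), (1243, 1250), (1253, 1250), (10097, 10000), (5083, 5000), (5117, 5000), (5151, 5000), (2593, 2500), (5223, 5000), (10527, 10000), (5309, 5000), (429, 400), (1357, 1250), (5513, 5000), (11263, 10000), (1163, 1000), (12311, 10000), (6939, 5000), (7287, 5000), (14983, 10000), (1907, 1250), (3863, 2500), (15601, 10000), (15717, 10000), (15811, 10000), (15889, 10000), (7977, 5000), (1601, 1000), (8029, 5000), (161, 100), (16137, 10000), (1617, 1000), (81, 50), (16227, 10000), (4063, 2500), (8137, 5000), (3259, 2000), (8157, 5000), (4083, 2500), (4087, 2500), (16363, 10000), (16377, 10000), (16391, 10000), (4101, 2500), (1026, 625), (16427, 10000), (8219, 5000), (1028, 625),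 (8229, 5000), (4117, 2500), (16477, 10000), (8243, 5000), (8247, 5000), (8251, 5000), (1651, 1000), (8259, 5000), (661, 400), (4133, 2500), (16539, 10000), (8273, 5000), (16553, 10000), (207, 125), (8283, 5000), (4143, 2500), (8289, 5000), (2073, 1250), (1659, 1000), (4149, 2500), (8301, 5000), (1038, 625), (8307, 5000), (831, 500), (8313, 5000), (2079, 1250), (8319, 5000), (4161, 2500), (333, 200), (3331, 2000), (16661, 10000), (16667, 10000), (16673, 10000), (16679, 10000), (3337, 2000), (16691, 10000), (16697, 10000), (16703, 10000), (16709, 10000), (3343, 2000), (16721, 10000), (16727, 10000), (16733, 10000), (16739, 10000), (3349, 2000), (1047, 625), (16759, 10000), (8383, 5000), (16773, 10000), (839, 500), (16787, 10000), (3359, 2000), (16803, 10000), (16811, 10000), (16819, 10000), (4207, 2500), (16837, 10000), (8423, 5000), (2107, 1250), (8433, 5000), (16877, 10000), (2111, 1250), (169, 100), (16913, 10000), (8463, 5000), (847, 500), (3391, 2000), (16971,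 10000), (4247, 2500), (17007, 10000), (17027, 10000), (17049, 10000), (17073, 10000), (17099, 10000), (2141, 1250), (429, 250), (4299, 2500), (17237, 10000), (17283, 10000), (2167, 1250), (8699, 5000), (17471, 10000), (8779, 5000), (3533, 2000), (17799, 10000), (4493, 2500), (3641, 2000), (2317, 1250), (2381, 1250), (9981, 5000), (5549, 2500), (23331, 10000), (24087, 10000), (4931, 2000), (5023, 2000), (6377, 2500), (25857, 10000), (26179, 10000), (5297, 2000), (26783, 10000), (13541, 5000), (27389, 10000), (1732, 625), (1403, 500), (5689, 2000), (28883, 10000), (29397, 10000), (30021, 10000), (3851, 1250), (31851, 10000), (33317, 10000), (8887, 2500), (19673, 5000), (23521, 5000), (68431, 10000), (196491, 10000)]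

def bz7 : List (ℕ × ℕ) :=
  [(0, 1), (23, 1000), (327, 10000), (41, 1000), (477, 10000), (263, 5000), (287, 5000), (633, 10000), (729, 10000), (993, 10000), (1123, 10000), (599, 5000), (1253, 10000), (1301, 10000), (1349, 10000), (351, 2500), (37, 250), (1619, 10000), (359, 2000), (47, 250), (967, 5000), (1973, 10000), (2003, 10000), (507, 2500), (41, 200), (2071, 10000), (2091, 10000), (2111, 10000), (533, 2500), (431, 2000), (2181, 10000), (553, 2500), (2251, 10000), (461, 2000), (1193, 5000), (253, 1000), (36, 125), (3247, 10000), (1711, 5000), (353, 1000), (3607, 10000), (3667, 10000), (3717, 10000), (3761, 10000), (1901, 5000), (1921, 5000), (3883, 10000), (3927, 10000), (3977, 10000), (1009, 2500), (257, 625), (2109, 5000), (1097, 2500), (296, 625), (209, 400), (5463, 10000), (1123, 2000), (5727, 10000), (5817, 10000), (1179, 2000), (5967, 10000), (6037, 10000), (1527, 2500), (773, 1250), (627, 1000), (3187, 5000), (6509, 10000), (3351, 5000), (3509, 5000),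 (3841, 5000), (351, 400), (2327, 2500), (483, 500), (9933, 10000), (10171, 10000), (26, 25), (5321, 5000), (437, 400), (706, 625), (11869, 10000), (13047, 10000), (3569, 2500), (15017, 10000), (15591, 10000), (16111, 10000), (333, 200), (8643, 5000), (9081, 5000), (1967, 1000), (22889, 10000), (24461, 10000), (6363, 2500), (13077, 5000), (13343, 5000), (27109, 10000), (13729, 5000), (13877, 5000), (28011, 10000), (28239, 10000), (7111, 2500), (28631, 10000), (7201, 2500), (14483, 5000), (29119, 10000), (14633, 5000), (1838, 625), (14773, 5000), (14841, 5000), (29817, 10000), (1872, 625), (30089, 10000), (7557, 2500), (30371, 10000), (30519, 10000), (15337, 5000), (30837, 10000), (31011, 10000), (15599, 5000), (15701, 5000), (31627, 10000), (31877, 10000), (402, 125), (6497, 2000), (6573, 2000), (16659, 5000), (33871, 10000), (17283, 5000), (35469, 10000), (18347, 5000), (9613, 2500), (41177, 10000), (45903, 10000), (13929, 2500), (84261, 10000), (17516, 625)]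

def bz8 : List (ℕ × ℕ) :=
  [(0, 1), (207, 10000), (279, 10000), (323, 10000), (361, 10000), (409, 10000), (89, 2000), (93, 2000), (239, 5000), (61, 1250), (31, 625), (251, 5000), (507, 10000), (32, 625), (129, 2500), (13, 250), (131, 2500), (33, 625), (133, 2500), (67, 1250), (27, 500), (34, 625), (137, 2500), (553, 10000), (279, 5000), (141, 2500), (571, 10000), (29, 500), (591, 10000), (303, 5000), (157, 2500), (83, 1250), (367, 5000), (939, 10000), (1081, 10000), (581, 5000), (611, 5000), (1277, 10000), (167, 1250), (1413, 10000), (193, 1250), (361, 2000), (961, 5000), (499, 2500), (513, 2500), (2099, 10000), (2143, 10000), (547, 2500), (1119, 5000), (2299, 10000), (2383, 10000), (2519, 10000), (2817, 10000), (401, 1250), (339, 1000), (3503, 10000), (224, 625), (228, 625), (3703, 10000), (1877, 5000), (951, 2500), (771, 2000), (3911, 10000), (3977, 10000), (4061, 10000), (4179, 10000), (4371, 10000), (299, 625), (5281, 10000), (5517, 10000), (5661, 10000), (5761,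 10000), (5837, 10000), (2949, 5000), (5949, 10000), (2997, 5000), (3017, 5000), (759, 1250), (1527, 2500), (6143, 10000), (6179, 10000), (777, 1250), (1251, 2000), (3149, 5000), (3173, 5000), (3201, 5000), (647, 1000), (6557, 10000), (267, 400), (6849, 10000), (7143, 10000), (7779, 10000), (871, 1000), (2283, 2500), (9381, 10000), (9547, 10000), (9667, 10000), (4879, 5000), (983, 1000), (9889, 10000), (9939, 10000), (4991, 5000), (10019, 10000), (2513, 2500), (5041, 5000), (10109, 10000), (5067, 5000), (10157, 10000), (10179, 10000), (51, 50), (511, 500), (10239, 10000), (10257, 10000), (411, 400), (10293, 10000), (10311, 10000), (10329, 10000), (10347, 10000), (2073, 2000), (649, 625), (10403, 10000), (10423, 10000), (2611, 2500), (5233, 5000), (1049, 1000), (2103, 2000), (10543, 10000), (5287, 5000), (663, 625), (10647, 10000), (10691, 10000), (10743, 10000), (2161, 2000), (10881, 10000), (10977, 10000), (694, 625), (11281, 10000), (2887, 2500), (6003, 5000), (2603,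 2000), (7051, 5000), (14727, 10000), (3037, 2000), (15573, 10000), (797, 500), (4081, 2500), (1048, 625), (8671, 5000), (91, 50), (19817, 10000), (11527, 5000), (24571, 10000), (25487, 10000), (26109, 10000), (26561, 10000), (13453, 5000), (27179, 10000), (27401, 10000), (13793, 5000), (27743, 10000), (13939, 5000), (5599, 2000), (14049, 5000), (2819, 1000), (28273, 10000), (7087, 2500), (1776, 625), (14239, 5000), (3567, 1250), (28589, 10000), (28639, 10000), (14343, 5000), (2873, 1000), (7193, 2500), (28811, 10000), (28849, 10000), (5777, 2000), (28919, 10000), (3619, 1250), (3623, 1250), (5803, 2000), (5809, 2000), (14537, 5000), (29103, 10000), (29131, 10000), (29159, 10000), (14593, 5000), (29213, 10000), (731, 250), (29267, 10000), (29293, 10000), (29319, 10000), (5869, 2000), (7343, 2500), (29399, 10000), (14713, 5000), (29453, 10000), (29481, 10000), (29509, 10000), (14769, 5000), (29567, 10000), (29597, 10000), (7407, 2500), (1483, 500), (29693, 10000),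 (29727, 10000), (29763, 10000), (29801, 10000), (373, 125), (14941, 5000), (14963, 5000), (29973, 10000), (30023, 10000), (30077, 10000), (6027, 2000), (15099, 5000), (30267, 10000), (30343, 10000), (7607, 2500), (30523, 10000), (30631, 10000), (6151, 2000), (30899, 10000), (31069, 10000), (1251, 400), (3153, 1000), (15929, 5000), (323, 100), (32943, 10000), (34033, 10000), (2198, 625), (1443, 400), (923, 250), (4723, 1250), (38733, 10000), (9961, 2500), (2577, 625), (10773, 2500), (45801, 10000), (25099, 5000), (58547, 10000), (4949, 625), (169283, 10000)]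

theorem hN_le (i : ℕ) : hN i ≤ 4000 := by
  unfold hN
  split <;> norm_num

theorem hG_eq (i : ℕ) : ((hG i : ℚ) : ℝ) = (hN i : ℝ) / 1000 := by
  unfold hG
  push_cast
  rfl

theorem En_cast (i n d : ℕ) : ((En i n d : ℕ) : ℝ) = |(hN i : ℝ) * d - 1000 * n| := by
  unfold En
  rcases le_total (hN i * d) (1000 * n) with h | h
  · rw [Nat.sub_eq_zero_of_le h, zero_add, Nat.cast_sub h]
    have h' : (hN i : ℝ) * d ≤ 1000 * n := by exact_mod_cast h
    rw [abs_of_nonpos (by linarith)]
    push_cast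
    ring
  · rw [Nat.sub_eq_zero_of_le h, add_zero, Nat.cast_sub h]
    have h' : (1000 : ℝ) * n ≤ hN i * d := by exact_mod_cast h
    rw [abs_of_nonneg (by linarith)]
    push_cast
    ring

theorem abs_max {h v0 v1 v M : ℝ} (h0 : v0 ≤ v) (h1 : v ≤ v1) (hM0 : |h - v0| ≤ M) (hM1 : |h - v1| ≤ M) :
    |h - v| ≤ M := by
  rw [abs_le] at hM0 hM1 ⊢
  constructor <;> linarith [hM0.1, hM0.2, hM1.1, hM1.2]

theorem factorz (i : ℕ) {n0 d0 n1 d1 : ℕ} (hd0 : 0 < d0) (hd1 : 0 < d1) {v : ℝ}
    (h0 : vl (n0, d0) ≤ v) (h1 : v ≤ vl (n1, d1)) :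
    |((hG i : ℚ) : ℝ) - v| * (1000 * d0 * d1) ≤
      ((max (En i n0 d0 * d1) (En i n1 d1 * d0) : ℕ) : ℝ) := by
  have hd0' : (0 : ℝ) < d0 := by exact_mod_cast hd0
  have hd1' : (0 : ℝ) < d1 := by exact_mod_cast hd1
  set M : ℝ := ((max (En i n0 d0 * d1) (En i n1 d1 * d0) : ℕ) : ℝ) with hM
  have hc : (0 : ℝ) < 1000 * d0 * d1 := by positivity
  have e0 : |((hG i : ℚ) : ℝ) - vl (n0, d0)| * (1000 * d0 * d1) = ((En i n0 d0 * d1 : ℕ) : ℝ) := by
    rw [Nat.cast_mul, En_cast, hG_eq]
    have : (hN i : ℝ) * d0 - 1000 * n0 = ((hN i : ℝ) / 1000 - vl (n0, d0)) * (1000 * d0) := by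
      unfold vl; field_simp
    rw [this, abs_mul, abs_of_pos (by positivity : (0 : ℝ) < 1000 * d0)]
    ring
  have e1 : |((hG i : ℚ) : ℝ) - vl (n1, d1)| * (1000 * d0 * d1) = ((En i n1 d1 * d0 : ℕ) : ℝ) := by
    rw [Nat.cast_mul, En_cast, hG_eq]
    have : (hN i : ℝ) * d1 - 1000 * n1 = ((hN i : ℝ) / 1000 - vl (n1, d1)) * (1000 * d1) := by
      unfold vl; field_simp
    rw [this, abs_mul, abs_of_pos (by positivity : (0 : ℝ) < 1000 * d1)]
    ring
  rw [← le_div_iff₀ hc]
  apply abs_max h0 h1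
  · rw [le_div_iff₀ hc, e0, hM]
    exact_mod_cast le_max_left _ _
  · rw [le_div_iff₀ hc, e1, hM]
    exact_mod_cast le_max_right _ _

theorem LNz_sound (c : ℕ) {n0 d0 n1 d1 : ℕ} (hd0 : 0 < d0) (hd1 : 0 < d1) {v : ℝ}
    (h0 : vl (n0, d0) ≤ v) (h1 : v ≤ vl (n1, d1)) : ∀ b : ℕ,
    (∏ i ∈ Finset.range b, |((hG i : ℚ) : ℝ) - v| ^ (2 * sG c i)) * (1000 * (d0 : ℝ) * d1) ^ (2 * SNz c b) ≤
      ((LNz c n0 d0 n1 d1 b : ℕ) : ℝ) := by
  intro b
  induction b with
  | zero => simp [LNz, SNz]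
  | succ b ih =>
    rw [Finset.prod_range_succ]
    have hS : SNz c (b + 1) = SNz c b + sG c b := rfl
    have hL : LNz c n0 d0 n1 d1 (b + 1) = LNz c n0 d0 n1 d1 b *
      (max (En b n0 d0 * d1) (En b n1 d1 * d0)) ^ (2 * sG c b) := rfl
    rw [hS, hL, mul_add, pow_add, Nat.cast_mul, Nat.cast_pow]
    have hf := factorz b hd0 hd1 h0 h1
    calc (∏ i ∈ Finset.range b, |((hG i : ℚ) : ℝ) - v| ^ (2 * sG c i)) * |((hG b : ℚ) : ℝ) - v| ^ (2 * sG c b) *
          ((1000 * (d0 : ℝ) * d1) ^ (2 * SNz c b) * (1000 * (d0 : ℝ) * d1) ^ (2 * sG c b))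
        = ((∏ i ∈ Finset.range b, |((hG i : ℚ) : ℝ) - v| ^ (2 * sG c i)) *
          (1000 * (d0 : ℝ) * d1) ^ (2 * SNz c b)) *
          (|((hG b : ℚ) : ℝ) - v| * (1000 * (d0 : ℝ) * d1)) ^ (2 * sG c b) := by
          rw [mul_pow |((hG b : ℚ) : ℝ) - v|]; ring
      _ ≤ _ := by
          apply mul_le_mul ih _ (by positivity) (Nat.cast_nonneg _)
          exact pow_le_pow_left₀ (by positivity) hf _

/-- the far factors before the reduction -/
def K3 : List (ℕ × ℕ × ℕ) := [(36, 1, 1920), (60, 1, 3840), (108, 1, 7680), (220, 1, 19200)]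

theorem bern {v c : ℝ} (hv : 0 ≤ v) (hc : 0 < c) (s e : ℕ) (hs : 0 < s) :
    (1 + v / (c / s) ^ 2) ^ e ≤ (1 + v / c ^ 2) ^ (s ^ 2 * e) := by
  rw [pow_mul]
  apply pow_le_pow_left₀ (by positivity)
  have h1 := one_add_mul_le_pow (a := v / c ^ 2) (by
    have : 0 ≤ v / c ^ 2 := by positivity
    linarith) (s ^ 2)
  refine le_trans (le_of_eq ?_) h1
  have hs' : (s : ℝ) ≠ 0 := by exact_mod_cast hs.ne'
  push_cast
  field_simp

theorem FXpG_eq (v : ℝ) : FXpG v = Q (K1 ++ K6 ++ K2a ++ K3) v := by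
  unfold FXpG Q FXG K1 K6 K2a K3
  simp

theorem posK1 : Pool.Agent.H336R2.HD.G3.Pos K1 := by unfold Pool.Agent.H336R2.HD.G3.Pos; decide
theorem posK6 : Pool.Agent.H336R2.HD.G3.Pos K6 := by unfold Pool.Agent.H336R2.HD.G3.Pos; decide
theorem posK2 : Pool.Agent.H336R2.HD.G3.Pos K2 := by unfold Pool.Agent.H336R2.HD.G3.Pos; decide
theorem posKK0 : Pool.Agent.H336R2.HD.G3.Pos KK0 := by unfold Pool.Agent.H336R2.HD.G3.Pos; decide
theorem posKc : Pool.Agent.H336R2.HD.G3.Pos (K1 ++ K6 ++ K2a) := by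
  unfold Pool.Agent.H336R2.HD.G3.Pos; decide

theorem K23 {v : ℝ} (hv : 0 ≤ v) : Q K2b v ≤ Q K3 v := by
  have b1 := bern hv (c := 36) (by norm_num) 2 480 (by norm_num)
  have b2 := bern hv (c := 60) (by norm_num) 4 240 (by norm_num)
  have b3 := bern hv (c := 108) (by norm_num) 8 120 (by norm_num)
  have b4 := bern hv (c := 220) (by norm_num) 16 75 (by norm_num)
  have e1 : (36 : ℝ) / ((2 : ℕ) : ℝ) = ((18 : ℕ) : ℝ) / ((1 : ℕ) : ℝ) := by norm_num
  have e2 : (60 : ℝ) / ((4 : ℕ) : ℝ) = ((15 : ℕ) : ℝ) / ((1 : ℕ) : ℝ) := by norm_num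
  have e3 : (108 : ℝ) / ((8 : ℕ) : ℝ) = ((27 : ℕ) : ℝ) / ((2 : ℕ) : ℝ) := by norm_num
  have e4 : (220 : ℝ) / ((16 : ℕ) : ℝ) = ((55 : ℕ) : ℝ) / ((4 : ℕ) : ℝ) := by norm_num
  have f1 : (36 : ℝ) = ((36 : ℕ) : ℝ) / ((1 : ℕ) : ℝ) := by norm_num
  have f2 : (60 : ℝ) = ((60 : ℕ) : ℝ) / ((1 : ℕ) : ℝ) := by norm_num
  have f3 : (108 : ℝ) = ((108 : ℕ) : ℝ) / ((1 : ℕ) : ℝ) := by norm_num
  have f4 : (220 : ℝ) = ((220 : ℕ) : ℝ) / ((1 : ℕ) : ℝ) := by norm_num
  rw [e1, f1] at b1
  rw [e2, f2] at b2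
  rw [e3, f3] at b3
  rw [e4, f4] at b4
  have g1 : 2 ^ 2 * 480 = 1920 := by norm_num
  have g2 : 4 ^ 2 * 240 = 3840 := by norm_num
  have g3 : 8 ^ 2 * 120 = 7680 := by norm_num
  have g4 : 16 ^ 2 * 75 = 19200 := by norm_num
  rw [g1] at b1
  rw [g2] at b2
  rw [g3] at b3
  rw [g4] at b4
  have n1 : ∀ a b e : ℕ, 0 ≤ (1 + v / ((a : ℝ) / (b : ℝ)) ^ 2) ^ e := fun a b e => by positivity
  unfold Q K2b K3
  simp only [List.map_cons, List.map_nil, List.prod_cons, List.prod_nil, mul_one]
  exact mul_le_mul b1 (mul_le_mul b2 (mul_le_mul b3 b4 (n1 _ _ _) (n1 _ _ _))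
    (mul_nonneg (n1 _ _ _) (n1 _ _ _)) (n1 _ _ _))
    (mul_nonneg (n1 _ _ _) (mul_nonneg (n1 _ _ _) (n1 _ _ _))) (n1 _ _ _)

theorem FXpG_ge {v : ℝ} (hv : 0 ≤ v) : Q KK0 v ≤ FXpG v := by
  rw [FXpG_eq, show KK0 = K1 ++ K6 ++ K2a ++ K2b from rfl, Q_append, Q_append (K1 ++ K6 ++ K2a)]
  exact mul_le_mul_of_nonneg_left (K23 hv) (Q_pos _ posKc hv).le

theorem chkIz_spec {b : ℕ} {p q : ℕ × ℕ} (h : chkIz b p q = true) :
    0 < p.2 ∧ 0 < q.2 ∧ 2 ^ tG b * LNz b p.1 p.2 q.1 q.2 10 * P2 KK0 p.2 ≤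
      P1 KK0 p.1 p.2 * (1000 * p.2 * q.2) ^ (2 * SNz b 10) := by
  unfold chkIz at h
  rw [Bool.and_eq_true, Bool.and_eq_true] at h
  exact ⟨of_decide_eq_true h.1.1, of_decide_eq_true h.1.2, of_decide_eq_true h.2⟩

theorem real_intervalz {L D P2' LN' T P1' Q' : ℝ} (hL : L * D ≤ LN') (hQ : P1' ≤ Q' * P2')
    (hP2 : 0 < P2') (hD : 0 < D) (hT : 0 ≤ T) (hle : T * LN' * P2' ≤ P1' * D) : T * L ≤ Q' := by
  have hc : 0 < D * P2' := mul_pos hD hP2
  refine le_of_mul_le_mul_right ?_ hc
  calc T * L * (D * P2') = T * (L * D) * P2' := by ring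
    _ ≤ T * LN' * P2' := mul_le_mul_of_nonneg_right (mul_le_mul_of_nonneg_left hL hT) hP2.le
    _ ≤ P1' * D := hle
    _ ≤ (Q' * P2') * D := mul_le_mul_of_nonneg_right hQ hD.le
    _ = Q' * (D * P2') := by ring

theorem nat_intervalz (LN' P2' T P1' d0 d1 S : ℕ)
    (h : 2 ^ T * LN' * P2' ≤ P1' * (1000 * d0 * d1) ^ (2 * S)) :
    2 ^ T * (LN' : ℝ) * (P2' : ℝ) ≤ (P1' : ℝ) * (1000 * (d0 : ℝ) * (d1 : ℝ)) ^ (2 * S) := by
  exact_mod_cast h

theorem intervalz {b : ℕ} {p q : ℕ × ℕ} (h : chkIz b p q = true) {v : ℝ}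
    (h0 : vl p ≤ v) (h1 : v ≤ vl q) :
    2 ^ tG b * ∏ i ∈ Finset.range 10, |((hG i : ℚ) : ℝ) - v| ^ (2 * sG b i) ≤ FXpG v := by
  obtain ⟨n0, d0⟩ := p
  obtain ⟨n1, d1⟩ := q
  obtain ⟨hp, hq, hle⟩ := chkIz_spec h
  have h0' : (0 : ℝ) < d0 := by exact_mod_cast hp
  have h1' : (0 : ℝ) < d1 := by exact_mod_cast hq
  have hv0 : 0 ≤ v := le_trans (by unfold vl; positivity) h0
  refine le_trans ?_ (FXpG_ge hv0)
  exact real_intervalz (LNz_sound b hp hq h0 h1 10) (Q_low KK0 posKK0 hp h0)
    (P2_pos KK0 posKK0 hp) (by positivity) (by positivity) (nat_intervalz _ _ _ _ _ _ _ hle)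

theorem chainz {b : ℕ} : ∀ (l : List (ℕ × ℕ)) (p : ℕ × ℕ), chkLz b (p :: l) = true →
    ∀ v : ℝ, vl p ≤ v → v < vl ((p :: l).getLast (by simp)) →
    2 ^ tG b * ∏ i ∈ Finset.range 10, |((hG i : ℚ) : ℝ) - v| ^ (2 * sG b i) ≤ FXpG v := by
  intro l
  induction l with
  | nil =>
    intro p _ v h0 h1
    simp at h1
    linarith
  | cons q l ih =>
    intro p h v h0 h1
    have h' : chkIz b p q = true ∧ chkLz b (q :: l) = true := by
      have : chkLz b (p :: q :: l) = (chkIz b p q && chkLz b (q :: l)) := rfl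
      rw [this, Bool.and_eq_true] at h
      exact h
    rcases le_or_gt v (vl q) with h2 | h2
    · exact intervalz h'.1 h0 h2
    · apply ih q h'.2 v h2.le
      rw [List.getLast_cons (by simp)] at h1
      exact h1

theorem prod_tailz (c : ℕ) {v : ℝ} (hv : 2 ≤ v) : ∀ b : ℕ,
    ∏ i ∈ Finset.range b, |((hG i : ℚ) : ℝ) - v| ^ (2 * sG c i) ≤ v ^ (2 * SNz c b) := by
  intro b
  induction b with
  | zero => simp [SNz]
  | succ b ih =>
    rw [Finset.prod_range_succ]
    have hS : SNz c (b + 1) = SNz c b + sG c b := rfl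
    rw [hS, mul_add, pow_add]
    have h1 : |((hG b : ℚ) : ℝ) - v| ≤ v := by
      rw [hG_eq]
      have h2 : ((hN b : ℕ) : ℝ) ≤ 4000 := by exact_mod_cast hN_le b
      have h3 : (0 : ℝ) ≤ hN b := Nat.cast_nonneg _
      rw [abs_le]
      constructor <;> linarith
    have hv0 : 0 ≤ v := by linarith
    exact mul_le_mul ih (pow_le_pow_left₀ (abs_nonneg _) h1 _) (by positivity) (by positivity)

theorem real_tailz {P v d n T q1 q2 q6 p1 p2 c6 r1 r2 d6 : ℝ} {S Z : ℕ}
    (hS : 2 * S + Z = 150)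
    (hv0 : 0 ≤ v) (hd : 0 < d) (hn0 : 0 ≤ n) (hnv : n ≤ v * d)
    (hP : P ≤ v ^ (2 * S))
    (h1 : r1 ≤ q1 * p1) (h2 : r2 ≤ q2 * p2) (h6 : v ^ 150 * d6 ≤ q6 * c6)
    (hp1 : 0 < p1) (hp2 : 0 < p2) (hc6 : 0 < c6) (hr1 : 0 ≤ r1) (hr2 : 0 ≤ r2)
    (hq1 : 0 < q1) (hq2 : 0 < q2) (hd6 : 0 ≤ d6) (hT : 0 ≤ T)
    (hle : T * p1 * p2 * c6 * d ^ Z ≤ n ^ Z * r1 * r2 * d6) :
    T * P ≤ q1 * q6 * q2 := by
  refine (mul_le_mul_of_nonneg_left hP hT).trans ?_
  have hc : (0 : ℝ) < p1 * p2 * c6 * d ^ Z := by positivity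
  refine le_of_mul_le_mul_right ?_ hc
  have hnZ : n ^ Z ≤ (v * d) ^ Z := pow_le_pow_left₀ hn0 hnv Z
  have hvS : 0 ≤ v ^ (2 * S) := by positivity
  have hdZ : 0 ≤ d ^ Z := by positivity
  have e3 : v ^ (2 * S) * (v * d) ^ Z = v ^ 150 * d ^ Z := by
    rw [← hS, pow_add, mul_pow]; ring
  calc T * v ^ (2 * S) * (p1 * p2 * c6 * d ^ Z)
      = v ^ (2 * S) * (T * p1 * p2 * c6 * d ^ Z) := by ring
    _ ≤ v ^ (2 * S) * (n ^ Z * r1 * r2 * d6) :=
        mul_le_mul_of_nonneg_left hle hvS
    _ ≤ v ^ (2 * S) * ((v * d) ^ Z * (q1 * p1) * (q2 * p2) * d6) := by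
        apply mul_le_mul_of_nonneg_left _ hvS
        apply mul_le_mul_of_nonneg_right _ hd6
        have hvd : 0 ≤ (v * d) ^ Z := pow_nonneg (by positivity) _
        apply mul_le_mul _ h2 hr2 (by positivity)
        exact mul_le_mul hnZ h1 hr1 (by positivity)
    _ = (q1 * p1) * (q2 * p2) * d6 * (v ^ (2 * S) * (v * d) ^ Z) := by ring
    _ = d ^ Z * (q1 * p1) * (q2 * p2) * (v ^ 150 * d6) := by
        rw [e3]; ring
    _ ≤ d ^ Z * (q1 * p1) * (q2 * p2) * (q6 * c6) := by
        apply mul_le_mul_of_nonneg_left h6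
        positivity
    _ = _ := by ring

theorem nat_tailz (p1 p2 c6 d Z T n r1 r2 d6 : ℕ)
    (h : 2 ^ T * p1 * p2 * c6 * d ^ Z ≤ n ^ Z * r1 * r2 * d6) :
    2 ^ T * (p1 : ℝ) * (p2 : ℝ) * (c6 : ℝ) * (d : ℝ) ^ Z ≤
      (n : ℝ) ^ Z * (r1 : ℝ) * (r2 : ℝ) * (d6 : ℝ) := by
  exact_mod_cast h

theorem chkTz_spec {b : ℕ} {p : ℕ × ℕ} (h : chkTz b p = true) :
    0 < p.2 ∧ 2 * p.2 ≤ p.1 ∧ 2 ^ tG b * P2 K1 p.2 * P2 K2 p.2 * C6 K6 * p.2 ^ (150 - 2 * SNz b 10) ≤
      p.1 ^ (150 - 2 * SNz b 10) * P1 K1 p.1 p.2 * P1 K2 p.1 p.2 * D6 K6 := by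
  unfold chkTz at h
  rw [Bool.and_eq_true, Bool.and_eq_true] at h
  exact ⟨of_decide_eq_true h.1.1, of_decide_eq_true h.1.2, of_decide_eq_true h.2⟩

theorem tailz {b : ℕ} (hS : 2 * SNz b 10 ≤ 150) {p : ℕ × ℕ} (h : chkTz b p = true) {v : ℝ}
    (h0 : vl p ≤ v) :
    2 ^ tG b * ∏ i ∈ Finset.range 10, |((hG i : ℚ) : ℝ) - v| ^ (2 * sG b i) ≤ FXpG v := by
  obtain ⟨n, d⟩ := p
  obtain ⟨hp, hq, hle⟩ := chkTz_spec h
  have hd : (0 : ℝ) < d := by exact_mod_cast hp
  have hnv : (n : ℝ) ≤ v * d := by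
    have : (n : ℝ) / d ≤ v := h0
    rwa [div_le_iff₀ hd] at this
  have hv : 2 ≤ v := by
    have h1 : (2 : ℝ) * d ≤ n := by exact_mod_cast hq
    have h2 : (2 : ℝ) * d ≤ v * d := h1.trans hnv
    exact le_of_mul_le_mul_right h2 hd
  have hv0 : 0 ≤ v := by linarith
  have q6 := Q_six K6 posK6 hv0
  have hsum : (K6.map fun y => y.2.2).sum = 150 := by decide
  rw [hsum] at q6
  have hFX : Q KK0 v = Q K1 v * Q K6 v * Q K2 v := by
    unfold KK0
    rw [Q_append, Q_append]
  refine le_trans ?_ (FXpG_ge hv0)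
  rw [hFX]
  have hZ' : 2 * SNz b 10 + (150 - 2 * SNz b 10) = 150 := by omega
  exact real_tailz hZ' hv0 hd (Nat.cast_nonneg _) hnv (prod_tailz b hv 10)
    (Q_low K1 posK1 hp h0) (Q_low K2 posK2 hp h0) q6
    (P2_pos K1 posK1 hp) (P2_pos K2 posK2 hp) (C6_pos K6 posK6) (Nat.cast_nonneg _) (Nat.cast_nonneg _)
    (Q_pos K1 posK1 hv0) (Q_pos K2 posK2 hv0) (Nat.cast_nonneg _) (by positivity)
    (nat_tailz _ _ _ _ _ _ _ _ _ _ hle)

theorem cz1 : chkLz 1 bz1 = true := by decide +kernel
theorem cz2 : chkLz 2 bz2 = true := by decide +kernel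
theorem cz3 : chkLz 3 bz3 = true := by decide +kernel
theorem cz4 : chkLz 4 bz4 = true := by decide +kernel
theorem cz5 : chkLz 5 bz5 = true := by decide +kernel
theorem cz6 : chkLz 6 bz6 = true := by decide +kernel
theorem cz7 : chkLz 7 bz7 = true := by decide +kernel
theorem cz8 : chkLz 8 bz8 = true := by decide +kernel
theorem tz1 : chkTz 1 (bz1.getLast (by decide)) = true := by decide +kernel
theorem tz2 : chkTz 2 (bz2.getLast (by decide)) = true := by decide +kernel
theorem tz3 : chkTz 3 (bz3.getLast (by decide)) = true := by decide +kernel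
theorem tz4 : chkTz 4 (bz4.getLast (by decide)) = true := by decide +kernel
theorem tz5 : chkTz 5 (bz5.getLast (by decide)) = true := by decide +kernel
theorem tz6 : chkTz 6 (bz6.getLast (by decide)) = true := by decide +kernel
theorem tz7 : chkTz 7 (bz7.getLast (by decide)) = true := by decide +kernel
theorem tz8 : chkTz 8 (bz8.getLast (by decide)) = true := by decide +kernel

theorem bothz {b : ℕ} (hS : 2 * SNz b 10 ≤ 150) (l : List (ℕ × ℕ)) (p : ℕ × ℕ)
    (hp : p.1 = 0) (h1 : chkLz b (p :: l) = true)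
    (h2 : chkTz b ((p :: l).getLast (by simp)) = true) {v : ℝ} (hv : 0 ≤ v) :
    2 ^ tG b * ∏ i ∈ Finset.range 10, |((hG i : ℚ) : ℝ) - v| ^ (2 * sG b i) ≤ FXpG v := by
  rcases lt_or_ge v (vl ((p :: l).getLast (by simp))) with h | h
  · apply chainz l p h1 v _ h
    unfold vl
    rw [hp]
    simpa using hv
  · exact tailz hS h2 h

end GC

open GC

/-- **certificate** -/
theorem G3_cert : StG3 := by
  intro b hb v hv
  interval_cases b
  · refine le_trans ?_ (FXpG_ge hv)
    have h : (1 : ℝ) ≤ Q KK0 v := by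
      have := Q_low KK0 posKK0 (n := 0) (d := 1) one_pos (v := v) (by unfold vl; simpa using hv)
      have e : P1 KK0 0 1 = P2 KK0 1 := by
        unfold P1 P2
        simp
      rw [e] at this
      have hp := P2_pos KK0 posKK0 one_pos
      have h2 : 1 * (P2 KK0 1 : ℝ) ≤ Q KK0 v * P2 KK0 1 := by rw [one_mul]; exact this
      exact le_of_mul_le_mul_right h2 hp
    have e2 : ∏ i ∈ Finset.range 10, |((hG i : ℚ) : ℝ) - v| ^ (2 * sG 0 i) = 1 := by
      apply Finset.prod_eq_one
      intro i hi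
      have : sG 0 i = 0 := by
        rw [Finset.mem_range] at hi
        interval_cases i <;> rfl
      rw [this]
      simp
    rw [e2]
    simpa [tG] using h
  · exact bothz (by decide) _ _ rfl cz1 tz1 hv
  · exact bothz (by decide) _ _ rfl cz2 tz2 hv
  · exact bothz (by decide) _ _ rfl cz3 tz3 hv
  · exact bothz (by decide) _ _ rfl cz4 tz4 hv
  · exact bothz (by decide) _ _ rfl cz5 tz5 hv
  · exact bothz (by decide) _ _ rfl cz6 tz6 hv
  · exact bothz (by decide) _ _ rfl cz7 tz7 hv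
  · exact bothz (by decide) _ _ rfl cz8 tz8 hv

end Pool.Agent.W170.Z3
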