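import Pool.Agent.W170.Z3.G3
import Pool.Agent.W170.Z3.F3
import Pool.Agent.W918.Z3.B1
import Pool.Agent.W924.Z3.R1
import Pool.Agent.W976.Z3.B3
import Pool.Agent.W378.Z3.C1
import Pool.Agent.W368.Z3.C2
import Pool.Agent.W392.Z3.C3
import Pool.Agent.W125.Z3.D3
import Pool.Agent.W764.Z3.D4
import Pool.Agent.W52.Z3.Z3E2
import Pool.Agent.W319.Z3.E4
import Pool.Agent.W460.Z3.F4
import Pool.Agent.W923.Z3.PM
import Pool.Agent.W692.Z3.G1r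
import Pool.Agent.W790.Z3.G1m
import Pool.Agent.W249.Z3.G4a
import Pool.Agent.W395.Z3.G4b
import Pool.Agent.W565.Z3.G4c
import Pool.Agent.W311.Z3.G4e
import Pool.Agent.W28.Z3.AM
import Pool.Agent.W962.Z3.H2
import Pool.Agent.W999.Z3.H3
import Pool.Agent.W29.Z3.H4
import Pool.Agent.W337.Z3.H5
import Pool.Agent.W494.Z3.Z1
import Pool.Agent.W878.Z3.Z2
import Pool.Agent.W638.Z3.R3
import Pool.Agent.W509.Z3.H6

/-!
# Irrationality exponent of `ζ(3)` at most `5.42`: assembly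
-/

namespace Pool.Agent.W170.Z3

theorem hB3 : StB3 := Pool.Agent.W976.Z3.B3_of Pool.Agent.W918.Z3.B1 Pool.Agent.W924.Z3.R1.main

theorem hC2 : StC2 := Pool.Agent.W368.Z3.C2_of Pool.Agent.W378.Z3.C1_pa Pool.Agent.W378.Z3.C1_pa_int

theorem hP : StP :=
  Pool.Agent.W923.Z3.PM cells E5_chk E5_ok F3_total (Pool.Agent.W764.Z3.D4m_of hC2)
    (Pool.Agent.W764.Z3.D4c_of Pool.Agent.W392.Z3.C3)
    (Pool.Agent.W319.Z3.E4_of (Pool.Agent.W125.Z3.D3_of hC2) Pool.Agent.W52.Z3.E1 Pool.Agent.W52.Z3.E2)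
    Pool.Agent.W460.Z3.F4 Pool.Agent.W460.Z3.F5 Pool.Agent.W460.Z3.F6 Pool.Agent.W460.Z3.F7

theorem hPl : StPl := Pool.Agent.W923.Z3.Pl_of (Pool.Agent.W125.Z3.D3l_of hC2)

theorem hG1 : StG1 := Pool.Agent.W790.Z3.G1_of Pool.Agent.W692.Z3.G1r Pool.Agent.W692.Z3.G1z

theorem hG4b : StG4b := Pool.Agent.W395.Z3.G4b_of hG1 G3_cert

theorem hAM (hR3 : StR3) : StAM :=
  Pool.Agent.W28.Z3.AM_of hB3 Pool.Agent.W249.Z3.G4a hG4b (Pool.Agent.W565.Z3.G4c_of hR3)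
    Pool.Agent.W249.Z3.G4d Pool.Agent.W311.Z3.G4e

theorem hH3 : StH3 := Pool.Agent.W999.Z3.H3_of Pool.Agent.W378.Z3.C1_pa Pool.Agent.W962.Z3.H2

theorem hH4 : StH4 := Pool.Agent.W29.Z3.H4_of Pool.Agent.W378.Z3.C1_pa

theorem hH5' : StH5' := Pool.Agent.W337.Z3.H5'

theorem Z_pre (hR3 : StR3) (hH6 : StH6) : StZ :=
  Pool.Agent.W878.Z3.Z_of (hAM hR3) hP hPl hH6 Pool.Agent.W494.Z3.Z1

theorem hR3 : StR3 := Pool.Agent.W638.Z3.R3_of Pool.Agent.W924.Z3.R1.r2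

theorem hH6 : StH6 := Pool.Agent.W509.Z3.H6_of hH3 hH4 hH5'

/-- **irrationality exponent of `ζ(3)` at most `5.42`** -/
theorem Z_main : StZ := Z_pre hR3 hH6

end Pool.Agent.W170.Z3
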